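import Pool.Agent.H12.ON.Def

/-! # [H12 OG] THEOREM ONE for all curves (think 1286): link classes of embeddings of a function field

`k` a field, `L₁` a function field of one variable over `k`, `Ω` an algebraically closed field over `k`. A point of the curve over `Ω` = an embedding
`λ : L₁ →ₐ[k] Ω`. `ξ ∈ L₁` has poles exactly at the points at infinity, `g ∈ L₁` is regular there with residue a generator of `K`.
`GLink k ξ g λ μ`: `λ` and `μ` behave in the same way at all valuation rings of `Ω` over `k`. `GCls` = the class. `RInt k ξ` = the integral closure of `k[ξ]` in `L₁`. -/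

namespace Pool.Agent.H12.OG

open Pool.Agent.H12.ON

variable {k L₁ Ω : Type} [Field k] [Field L₁] [Field Ω] [Algebra k L₁] [Algebra k Ω]

/-- linked embeddings -/
def GLink (ξ g : L₁) (l m : L₁ →ₐ[k] Ω) : Prop :=
  ∀ V : ValuationSubring Ω, Ov k V → (l ξ ∈ V ↔ m ξ ∈ V) ∧
    (l ξ ∉ V → l ξ / m ξ ∈ V ∧ m ξ / l ξ ∈ V ∧ l g - m g ∈ V.nonunits)

/-- the class of an embedding -/
def GCls (ξ g : L₁) (l : L₁ →ₐ[k] Ω) : Set (L₁ →ₐ[k] Ω) := {m | GLink ξ g l m}

/-- the functions which are integral over `k[ξ]` -/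
def IsInt (k : Type) {L₁ : Type} [Field k] [Field L₁] [Algebra k L₁] (ξ q : L₁) : Prop :=
  IsIntegral (Algebra.adjoin k {ξ}) q

/-- the functions which are integral over `k[ξ]` and constant on the class of `l` -/
def Inv (ξ g : L₁) (l : L₁ →ₐ[k] Ω) (q : L₁) : Prop :=
  IsInt k ξ q ∧ ∀ m ∈ GCls ξ g l, m q = l q

end Pool.Agent.H12.OG
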