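import Pool.Agent.H12.OG.Def
import Pool.Agent.H82.NS.Def
import Pool.Agent.H12.ON.Gal

/-! # [H12 OG GAU] Automorphisms and embeddings

`L₁` is finite over `k(ξ)`, `ξ` transcendental (`FF k ξ`); `Ω` algebraically closed and algebraic over `k(l ξ)`, characteristic zero.
* `exists_aut'`: `Ω` is an algebraic closure of `L₁` through `l`; `IsAlgClosed.lift` extends `m` to `σ : Ω →ₐ[k] Ω` with `σ ∘ l = m`; the image is algebraically closed and contains `m ξ`, which is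
  transcendental over `k`; `Ω` has transcendence degree one over `k`, so it is algebraic over `k(m ξ)` and `σ` is surjective. (Compare `Pool/Agent/H12/ON/Gal.lean`: `alg_swap`, `exists_aut`.)
* `fixed_range`: `z` fixed by all `σ` with `σ ∘ l = l` is in the image of `l` (`Ω` over `l.fieldRange` is Galois). Compare `fixed_mem` in `ON/Gal.lean`. -/

namespace Pool.Agent.H12.OG

open Pool.Agent.H12.ON Pool.Agent.H82.NS IntermediateField

variable {k L₁ Ω : Type} [Field k] [CharZero k] [Field L₁] [Field Ω] [IsAlgClosed Ω] [Algebra k L₁] [Algebra k Ω]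
  {ξ : L₁}

omit [CharZero k] [IsAlgClosed Ω] in
private theorem gau_alg {x : Ω} (hΩ : Algebra.IsAlgebraic k⟮x⟯ Ω) {A : Subalgebra k Ω}
    (hx : x ∈ A) : Algebra.IsAlgebraic A Ω := by
  have h1 : Algebra.IsAlgebraic (Algebra.adjoin k {x}) Ω := isAlgebraic_adjoin_iff_top.1 hΩ
  have hle : Algebra.adjoin k {x} ≤ A := Algebra.adjoin_le (Set.singleton_subset_iff.2 hx)
  let _ : Algebra (Algebra.adjoin k {x}) A := (Subalgebra.inclusion hle).toRingHom.toAlgebra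
  have : IsScalarTower (Algebra.adjoin k {x}) A Ω := IsScalarTower.of_algebraMap_eq fun _ => rfl
  exact h1.extendScalars (Subalgebra.inclusion_injective hle)

theorem exists_aut' (hK : FF k ξ) (l m : L₁ →ₐ[k] Ω) (hΩ : Algebra.IsAlgebraic k⟮l ξ⟯ Ω) :
    ∃ σ : Ω ≃ₐ[k] Ω, (σ : Ω →ₐ[k] Ω).comp l = m := by
  have hm : Transcendental k (m ξ) := fun h => hK.tr ((isAlgebraic_algHom_iff m m.injective).1 h)
  have hΩm : Algebra.IsAlgebraic k⟮m ξ⟯ Ω := alg_swap hΩ hm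
  obtain ⟨e, he⟩ : ∃ e : l.range ≃+* m.range, ∀ p, ((e ⟨l p, ⟨p, rfl⟩⟩ : m.range) : Ω) = m p := by
    let e1 : L₁ ≃ₐ[k] l.range := AlgEquiv.ofInjective l l.injective
    let e2 : L₁ ≃ₐ[k] m.range := AlgEquiv.ofInjective m m.injective
    refine ⟨(e1.symm.trans e2).toRingEquiv, fun p => ?_⟩
    have h3 : e1.symm ⟨l p, ⟨p, rfl⟩⟩ = p := by
      rw [AlgEquiv.symm_apply_eq]
      rfl
    change ((e2 (e1.symm ⟨l p, ⟨p, rfl⟩⟩) : m.range) : Ω) = m p
    rw [h3]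
    rfl
  have hA1 : Algebra.IsAlgebraic l.range Ω := gau_alg hΩ ⟨ξ, rfl⟩
  have hA2 : Algebra.IsAlgebraic m.range Ω := gau_alg hΩm ⟨ξ, rfl⟩
  have hc1 : IsAlgClosure l.range Ω := ⟨inferInstance, hA1⟩
  have hc2 : IsAlgClosure m.range Ω := ⟨inferInstance, hA2⟩
  obtain ⟨σ, hσ⟩ : ∃ σ : Ω ≃+* Ω, ∀ p, σ (l p) = m p := by
    refine ⟨IsAlgClosure.equivOfEquiv Ω Ω e, fun p => ?_⟩
    have h3 := IsAlgClosure.equivOfEquiv_algebraMap Ω Ω e ⟨l p, ⟨p, rfl⟩⟩
    have h4 : algebraMap m.range Ω (e ⟨l p, ⟨p, rfl⟩⟩) = m p := he p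
    rw [h4] at h3
    exact h3
  refine ⟨AlgEquiv.ofRingEquiv (f := σ) fun c => ?_, ?_⟩
  · have h3 := hσ (algebraMap k _ c)
    rw [AlgHom.commutes, AlgHom.commutes] at h3
    exact h3
  · ext p
    exact hσ p

theorem fixed_range (hK : FF k ξ) (l : L₁ →ₐ[k] Ω) (hΩ : Algebra.IsAlgebraic k⟮l ξ⟯ Ω) {z : Ω}
    (h : ∀ σ : Ω ≃ₐ[k] Ω, (σ : Ω →ₐ[k] Ω).comp l = l → σ z = z) : ∃ q : L₁, l q = z := by
  have hA : Algebra.IsAlgebraic l.fieldRange Ω :=
    gau_alg hΩ (A := l.fieldRange.toSubalgebra) ⟨ξ, rfl⟩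
  have hch : CharZero l.fieldRange :=
    charZero_of_injective_algebraMap (algebraMap k l.fieldRange).injective
  have hc : IsAlgClosure l.fieldRange Ω := ⟨inferInstance, hA⟩
  have hn : Normal l.fieldRange Ω := IsAlgClosure.normal _ _
  have hg : IsGalois l.fieldRange Ω := ⟨⟩
  have h1 : z ∈ Set.range (algebraMap l.fieldRange Ω) := by
    rw [InfiniteGalois.mem_range_algebraMap_iff_fixed]
    intro f
    refine h (f.restrictScalars k) ?_
    ext p
    exact f.commutes ⟨l p, ⟨p, rfl⟩⟩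
  obtain ⟨⟨w, q, hq⟩, hw⟩ := h1
  exact ⟨q, hq.trans hw⟩

end Pool.Agent.H12.OG
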