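import Pool.Agent.H12.OG.Def

/-! # [H12 OG GCJ] Conjugates over the other curve are linked

Copy and modify `Pool/Agent/H12/ON/Cnj.lean` (proved): `L₁, L₂ → L → Ω`; `O` is the only valuation ring of `L` over `k` without `a₁ ξ₁`, and the only one without `a₂ ξ₂`. For `V` over `k` in `Ω` let
`W = V.comap ι`; if `ι a₁ ξ₁ ∉ V` or `ι a₂ ξ₂ ∉ V` then `W = O`, and neither is in `V`. `σ` fixes the image of `L₂` pointwise. `V' = V.comap σ`. (1) `σ ι a₁ ξ₁ ∈ V ↔ ι a₁ ξ₁ ∈ V' ↔ ι a₂ ξ₂ ∈ V' ↔ ι a₂ ξ₂ ∈ V ↔ ι a₁ ξ₁ ∈ V`.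
(2) `u = (a₁ ξ₁)^b/(a₂ ξ₂)^a` is a unit of `O`, `ι u` one of `V` and of `V'`, so `σ ι u` one of `V`; quotient: `(l ξ₁/σ l ξ₁)^b` is a unit, `b ≥ 1`. (3) `a₁ g₁ - a₂ g₂ ∈ m_O`: in `m_V` and in `m_V'`; apply `σ`, subtract. -/

namespace Pool.Agent.H12.OG

open Pool.Agent.H12.ON

private theorem gcj_root {K : Type} [Field K] (V : ValuationSubring K) {x : K} {b : ℕ} (hb : 1 ≤ b) (h : x ^ b ∈ V) :
    x ∈ V := by
  rcases V.mem_or_inv_mem x with h1 | h1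
  · exact h1
  · obtain ⟨n, rfl⟩ := Nat.exists_eq_add_of_le' hb
    by_cases hx : x = 0
    · rw [hx]
      exact V.zero_mem
    · have h2 : x = x ^ (n + 1) * x⁻¹ ^ n := by
        rw [inv_pow, pow_succ, mul_comm (x ^ n) x, mul_assoc, mul_inv_cancel₀ (pow_ne_zero n hx), mul_one]
      rw [h2]
      exact V.mul_mem _ _ h (pow_mem h1 n)

private theorem gcj_aux {k L Ω : Type} [Field k] [Field L] [Field Ω] [Algebra k L] [Algebra k Ω] (i : L →ₐ[k] Ω)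
    {x₁ y₁ x₂ y₂ : L} {O : ValuationSubring L} (h1 : x₁ ∉ O) (h2 : x₂ ∉ O)
    (hO1 : ∀ W : ValuationSubring L, Ov k W → x₁ ∉ W → W = O)
    (hO2 : ∀ W : ValuationSubring L, Ov k W → x₂ ∉ W → W = O) {a b : ℕ} (hb : 1 ≤ b)
    (hab : x₁ ^ b / x₂ ^ a ∈ O) (hba : x₂ ^ a / x₁ ^ b ∈ O)
    (hg : y₁ - y₂ ∈ O.nonunits) (σ : Ω ≃ₐ[k] Ω) (hx : σ (i x₂) = i x₂) (hy : σ (i y₂) = i y₂)
    (V : ValuationSubring Ω) (hV : Ov k V) :
    (i x₁ ∈ V ↔ σ (i x₁) ∈ V) ∧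
      (i x₁ ∉ V → i x₁ / σ (i x₁) ∈ V ∧ σ (i x₁) / i x₁ ∈ V ∧ i y₁ - σ (i y₁) ∈ V.nonunits) := by
  have hOvL : ∀ V : ValuationSubring Ω, Ov k V → Ov k (V.comap (i : L →+* Ω)) := by
    intro V hV e
    rw [ValuationSubring.mem_comap]
    have h3 : (i : L →+* Ω) (algebraMap k L e) = algebraMap k Ω e := i.commutes e
    rw [h3]
    exact hV e
  have hcm : ∀ (V : ValuationSubring Ω) (x : L), x ∈ V.comap (i : L →+* Ω) ↔ i x ∈ V := fun _ _ => Iff.rfl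
  have hW1 : ∀ V : ValuationSubring Ω, Ov k V → i x₁ ∉ V → V.comap (i : L →+* Ω) = O :=
    fun V hV h => hO1 _ (hOvL V hV) h
  have hW2 : ∀ V : ValuationSubring Ω, Ov k V → i x₂ ∉ V → V.comap (i : L →+* Ω) = O :=
    fun V hV h => hO2 _ (hOvL V hV) h
  have h12 : ∀ V : ValuationSubring Ω, Ov k V → (i x₁ ∈ V ↔ i x₂ ∈ V) := by
    intro V hV
    constructor
    · intro h
      by_contra h'
      have h3 := hW2 V hV h'
      exact h1 (h3 ▸ (hcm V x₁).2 h)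
    · intro h
      by_contra h'
      have h3 := hW1 V hV h'
      exact h2 (h3 ▸ (hcm V x₂).2 h)
  have hV' : Ov k (V.comap (σ : Ω →+* Ω)) := by
    intro e
    rw [ValuationSubring.mem_comap]
    have h3 : (σ : Ω →+* Ω) (algebraMap k Ω e) = algebraMap k Ω e := σ.commutes e
    rw [h3]
    exact hV e
  have hm : ∀ x : Ω, x ∈ V.comap (σ : Ω →+* Ω) ↔ σ x ∈ V := fun x => Iff.rfl
  have hnon : ∀ (V : ValuationSubring Ω) (x : L), x ∈ (V.comap (i : L →+* Ω)).nonunits → i x ∈ V.nonunits := by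
    intro V x hx
    rw [ValuationSubring.mem_nonunits_iff_or] at hx ⊢
    rcases hx with hx | hx
    · left
      rw [hx, map_zero]
    · right
      rw [hcm, map_inv₀] at hx
      exact hx
  have hnonσ : ∀ x : Ω, x ∈ (V.comap (σ : Ω →+* Ω)).nonunits → σ x ∈ V.nonunits := by
    intro x hx
    rw [ValuationSubring.mem_nonunits_iff_or] at hx ⊢
    rcases hx with hx | hx
    · left
      rw [hx, map_zero]
    · right
      rw [hm, map_inv₀] at hx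
      exact hx
  have hiff : i x₁ ∈ V ↔ σ (i x₁) ∈ V := by
    rw [← hm, h12 _ hV', hm, hx, h12 V hV]
  refine ⟨hiff, fun hP => ?_⟩
  have e1 := hW1 V hV hP
  have e2 := hW1 _ hV' fun h => hP (hiff.2 ((hm _).1 h))
  have z1 : x₁ ≠ 0 := fun h => h1 (h ▸ O.zero_mem)
  have z2 : x₂ ≠ 0 := fun h => h2 (h ▸ O.zero_mem)
  have A0 : ∀ x : L, x ≠ 0 → i x ≠ 0 := fun x h h' => h ((map_eq_zero i).1 h')
  have a1 := A0 _ z1
  have a2 := A0 _ z2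
  have t1 : σ (i x₁) ≠ 0 := fun h => a1 ((map_eq_zero σ).1 h)
  have u1 : i (x₁ ^ b / x₂ ^ a) ∈ V := (hcm V _).1 (e1 ▸ hab)
  have u2 : i (x₂ ^ a / x₁ ^ b) ∈ V := (hcm V _).1 (e1 ▸ hba)
  have u3 : σ (i (x₁ ^ b / x₂ ^ a)) ∈ V := (hm _).1 ((hcm _ _).1 (e2 ▸ hab))
  have u4 : σ (i (x₂ ^ a / x₁ ^ b)) ∈ V := (hm _).1 ((hcm _ _).1 (e2 ▸ hba))
  rw [map_div₀, map_pow, map_pow] at u1 u2
  rw [map_div₀, map_pow, map_pow, map_div₀, map_pow, map_pow, hx] at u3 u4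
  have v1 : i x₁ / σ (i x₁) ∈ V := by
    refine gcj_root V hb ?_
    have : (i x₁ / σ (i x₁)) ^ b = (i x₁ ^ b / i x₂ ^ a) * (i x₂ ^ a / σ (i x₁) ^ b) := by
      rw [div_pow, div_mul_div_cancel₀ (pow_ne_zero a a2)]
    rw [this]
    exact V.mul_mem _ _ u1 u4
  have v2 : σ (i x₁) / i x₁ ∈ V := by
    refine gcj_root V hb ?_
    have : (σ (i x₁) / i x₁) ^ b = (σ (i x₁) ^ b / i x₂ ^ a) * (i x₂ ^ a / i x₁ ^ b) := by
      rw [div_pow, div_mul_div_cancel₀ (pow_ne_zero a a2)]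
    rw [this]
    exact V.mul_mem _ _ u3 u2
  refine ⟨v1, v2, ?_⟩
  have w1 : i (y₁ - y₂) ∈ V.nonunits := hnon V _ (by rw [e1]; exact hg)
  have w2 : σ (i (y₁ - y₂)) ∈ V.nonunits := hnonσ _ (hnon _ _ (by rw [e2]; exact hg))
  rw [map_sub] at w1
  rw [map_sub, map_sub, hy] at w2
  have h6 := sub_mem w1 w2
  rw [sub_sub_sub_cancel_right] at h6
  exact h6

theorem gcj {k L₁ L₂ L Ω : Type} [Field k] [Field L₁] [Field L₂] [Field L] [Field Ω] [Algebra k L₁]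
    [Algebra k L₂] [Algebra k L] [Algebra k Ω] (a₁ : L₁ →ₐ[k] L) (a₂ : L₂ →ₐ[k] L) (i : L →ₐ[k] Ω)
    {ξ₁ g₁ : L₁} {ξ₂ g₂ : L₂} {O : ValuationSubring L} (h1 : a₁ ξ₁ ∉ O) (h2 : a₂ ξ₂ ∉ O)
    (hO1 : ∀ W : ValuationSubring L, Ov k W → a₁ ξ₁ ∉ W → W = O)
    (hO2 : ∀ W : ValuationSubring L, Ov k W → a₂ ξ₂ ∉ W → W = O) {a b : ℕ} (hb : 1 ≤ b)
    (hab : a₁ ξ₁ ^ b / a₂ ξ₂ ^ a ∈ O) (hba : a₂ ξ₂ ^ a / a₁ ξ₁ ^ b ∈ O)
    (hg : a₁ g₁ - a₂ g₂ ∈ O.nonunits) (σ : Ω ≃ₐ[k] Ω)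
    (hσ : (σ : Ω →ₐ[k] Ω).comp (i.comp a₂) = i.comp a₂) :
    GLink ξ₁ g₁ (i.comp a₁) ((σ : Ω →ₐ[k] Ω).comp (i.comp a₁)) := by
  have hfix : ∀ x : L₂, σ (i (a₂ x)) = i (a₂ x) := fun x => congrArg (fun f : L₂ →ₐ[k] Ω => f x) hσ
  exact fun V hV => gcj_aux i h1 h2 hO1 hO2 hb hab hba hg σ (hfix ξ₂) (hfix g₂) V hV

end Pool.Agent.H12.OG
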