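import Pool.Agent.H12.OG.Gcj
import Pool.Agent.H12.OG.Gau
import Pool.Agent.H12.ON.Val

/-! # [H12 OG GFX] Invariant functions live on the other curve

Setting of `gcj`. `q ∈ L₁` is constant on the class of `l = i ∘ a₁` and integral over `k[ξ₁]`. For `σ : Ω ≃ₐ[k] Ω` with `σ ∘ i ∘ a₂ = i ∘ a₂`: `σ ∘ l ∈ GCls ξ₁ g₁ l` (`gcj`), so `σ (l q) = l q`. `fixed_range` for `i ∘ a₂`: `l q = i (a₂ q₂)`, so `a₁ q = a₂ q₂`
(`i` injective). Integrality: `V` over `k` with `i a₂ ξ₂ ∈ V`: then `i a₁ ξ₁ ∈ V` (otherwise `V.comap i = O` and `a₂ ξ₂ ∉ O`), so `l q ∈ V` (integral over `k[l ξ₁] ⊆ V`). `int_of_all`: `i a₂ q₂` is integral over `k[i a₂ ξ₂]`; `i ∘ a₂` is injective. -/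

namespace Pool.Agent.H12.OG

open Pool.Agent.H12.ON Pool.Agent.H82.NS IntermediateField

/-- integral over `k[x]` and `x` in the valuation ring -/
private theorem gfx_mem {k K : Type} [Field k] [Field K] [Algebra k K] {W : ValuationSubring K} (hW : Ov k W)
    {x q : K} (hx : x ∈ W) (hq : IsInt k x q) : q ∈ W := by
  obtain ⟨p, hp, hpz⟩ := hq
  have hle : (Algebra.adjoin k {x}).toSubring ≤ W.toSubring := by
    have h1 : Algebra.adjoin k {x} ≤ ({ W.toSubring with algebraMap_mem' := hW } : Subalgebra k K) :=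
      Algebra.adjoin_le (Set.singleton_subset_iff.2 hx)
    exact h1
  have h1 : IsIntegral W q := by
    refine ⟨p.map (Subring.inclusion hle), hp.map _, ?_⟩
    rw [Polynomial.eval₂_map]
    exact hpz
  obtain ⟨y, rfl⟩ := IsIntegrallyClosed.isIntegral_iff.1 h1
  exact y.2

/-- integrality descends along embeddings -/
private theorem gfx_desc {k K K' : Type} [Field k] [Field K] [Field K'] [Algebra k K] [Algebra k K'] (f : K →ₐ[k] K')
    {x q : K} (h : IsInt k (f x) (f q)) : IsInt k x q := by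
  have hA : (Algebra.adjoin k {x}).map f = Algebra.adjoin k {f x} := AlgHom.map_adjoin_singleton _ _
  obtain ⟨p, hp, hpz⟩ := h
  obtain ⟨e, he⟩ : ∃ e : Algebra.adjoin k {x} ≃ₐ[k] Algebra.adjoin k {f x},
      ∀ a, ((e a : Algebra.adjoin k {f x}) : K') = f (a : K) :=
    ⟨((Algebra.adjoin k {x}).equivMapOfInjective f f.injective).trans (Subalgebra.equivOfEq _ _ hA),
      fun _ => rfl⟩
  refine ⟨p.map (e.symm : Algebra.adjoin k {f x} →+* Algebra.adjoin k {x}), hp.map _, ?_⟩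
  rw [Polynomial.eval₂_map]
  refine f.injective ?_
  change (f : K →+* K') _ = (f : K →+* K') _
  rw [Polynomial.hom_eval₂, map_zero]
  have hc : ((f : K →+* K').comp ((algebraMap (Algebra.adjoin k {x}) K).comp
      (e.symm : Algebra.adjoin k {f x} →+* Algebra.adjoin k {x}))) =
      algebraMap (Algebra.adjoin k {f x}) K' := by
    ext a
    change f ((e.symm a : Algebra.adjoin k {x}) : K) = (a : K')
    rw [← he, AlgEquiv.apply_symm_apply]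
  rw [hc]
  exact hpz

theorem gfx {k L₁ L₂ L Ω : Type} [Field k] [CharZero k] [Field L₁] [Field L₂] [Field L] [Field Ω]
    [IsAlgClosed Ω] [Algebra k L₁] [Algebra k L₂] [Algebra k L] [Algebra k Ω] (a₁ : L₁ →ₐ[k] L)
    (a₂ : L₂ →ₐ[k] L) (i : L →ₐ[k] Ω) {ξ₁ g₁ : L₁} {ξ₂ g₂ : L₂} (hK₂ : FF k ξ₂)
    (hΩ : Algebra.IsAlgebraic k⟮i (a₂ ξ₂)⟯ Ω) {O : ValuationSubring L} (h1 : a₁ ξ₁ ∉ O) (h2 : a₂ ξ₂ ∉ O)
    (hO1 : ∀ W : ValuationSubring L, Ov k W → a₁ ξ₁ ∉ W → W = O)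
    (hO2 : ∀ W : ValuationSubring L, Ov k W → a₂ ξ₂ ∉ W → W = O) {a b : ℕ} (hb : 1 ≤ b)
    (hab : a₁ ξ₁ ^ b / a₂ ξ₂ ^ a ∈ O) (hba : a₂ ξ₂ ^ a / a₁ ξ₁ ^ b ∈ O)
    (hg : a₁ g₁ - a₂ g₂ ∈ O.nonunits) {q : L₁} (hq : Inv ξ₁ g₁ (i.comp a₁) q) :
    ∃ q₂ : L₂, IsInt k ξ₂ q₂ ∧ a₁ q = a₂ q₂ := by
  obtain ⟨q₂, hq₂⟩ := fixed_range hK₂ (i.comp a₂) hΩ (z := (i.comp a₁) q) (fun σ hσ => by
    have h3 := hq.2 _ (gcj a₁ a₂ i h1 h2 hO1 hO2 hb hab hba hg σ hσ)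
    exact h3)
  have hq₃ : i (a₂ q₂) = i (a₁ q) := hq₂
  refine ⟨q₂, ?_, (i.injective hq₃).symm⟩
  refine gfx_desc (i.comp a₂) ?_
  refine int_of_all (k := k) (x := (i.comp a₂) ξ₂) (z := (i.comp a₂) q₂) fun V hV hx => ?_
  have hx' : i (a₂ ξ₂) ∈ V := hx
  have hov : ∀ {K : Type} [Field K] [Algebra k K] (f : K →ₐ[k] Ω), Ov k (V.comap (f : K →+* Ω)) := by
    intro K _ _ f e
    rw [ValuationSubring.mem_comap]
    have h3 : (f : K →+* Ω) (algebraMap k K e) = algebraMap k Ω e := f.commutes e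
    rw [h3]
    exact hV e
  have h3 : i (a₁ ξ₁) ∈ V := by
    by_contra hc
    have h4 : V.comap (i : L →+* Ω) = O := hO1 _ (hov i) hc
    refine h2 ?_
    rw [← h4]
    exact hx'
  have h5 : q ∈ V.comap ((i.comp a₁ : L₁ →ₐ[k] Ω) : L₁ →+* Ω) := gfx_mem (hov _) h3 hq.1
  rw [hq₂]
  exact h5

end Pool.Agent.H12.OG
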