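import Pool.Agent.H12.OG.Def

/-! # [H12 OG GLN] Linked embeddings: an equivalence relation, invariant under automorphisms

Copy and modify `Pool/Agent/H12/ON/Lnk.lean` (proved). `trans`: `l ξ/m' ξ = (l ξ/m ξ)(m ξ/m' ξ)`. `map`: `V.comap σ`. -/

namespace Pool.Agent.H12.OG

open Pool.Agent.H12.ON

variable {k L₁ Ω : Type} [Field k] [Field L₁] [Field Ω] [Algebra k L₁] [Algebra k Ω] {ξ g : L₁}

theorem GLink.rfl' (l : L₁ →ₐ[k] Ω) : GLink ξ g l l := by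
  intro V _
  refine ⟨Iff.rfl, fun hP => ?_⟩
  have h0 : l ξ ≠ 0 := fun h => hP (h ▸ V.zero_mem)
  rw [div_self h0, sub_self]
  exact ⟨V.one_mem, V.one_mem, V.nonunits.zero_mem⟩

theorem GLink.symm {l m : L₁ →ₐ[k] Ω} (h : GLink ξ g l m) : GLink ξ g m l := by
  intro V hV
  obtain ⟨h1, h2⟩ := h V hV
  refine ⟨h1.symm, fun hQ => ?_⟩
  obtain ⟨h3, h4, h5⟩ := h2 (fun hP => hQ (h1.1 hP))
  refine ⟨h4, h3, ?_⟩
  rw [← neg_sub]
  exact V.nonunits.neg_mem h5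

theorem GLink.trans {l m m' : L₁ →ₐ[k] Ω} (h : GLink ξ g l m) (h' : GLink ξ g m m') : GLink ξ g l m' := by
  intro V hV
  obtain ⟨h1, h2⟩ := h V hV
  obtain ⟨h1', h2'⟩ := h' V hV
  refine ⟨h1.trans h1', fun hP => ?_⟩
  obtain ⟨h3, h4, h5⟩ := h2 hP
  have hQ : m ξ ∉ V := fun hQ => hP (h1.2 hQ)
  obtain ⟨h3', h4', h5'⟩ := h2' hQ
  have h0 : m ξ ≠ 0 := fun h => hQ (h ▸ V.zero_mem)
  refine ⟨?_, ?_, ?_⟩
  · rw [← div_mul_div_cancel₀ h0]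
    exact V.mul_mem _ _ h3 h3'
  · rw [← div_mul_div_cancel₀ h0]
    exact V.mul_mem _ _ h4' h4
  · rw [← sub_add_sub_cancel (l g) (m g)]
    exact V.nonunits.add_mem h5 h5'

theorem GLink.map {l m : L₁ →ₐ[k] Ω} (h : GLink ξ g l m) (σ : Ω ≃ₐ[k] Ω) :
    GLink ξ g ((σ : Ω →ₐ[k] Ω).comp l) ((σ : Ω →ₐ[k] Ω).comp m) := by
  intro V hV
  have hV' : Ov k (V.comap (σ : Ω →+* Ω)) := by
    intro e
    rw [ValuationSubring.mem_comap]
    have h1 : (σ : Ω →+* Ω) (algebraMap k Ω e) = algebraMap k Ω e := σ.commutes e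
    rw [h1]
    exact hV e
  have hm : ∀ x : Ω, x ∈ V.comap (σ : Ω →+* Ω) ↔ σ x ∈ V := fun x => Iff.rfl
  have hn : ∀ x : Ω, x ∈ (V.comap (σ : Ω →+* Ω)).nonunits → σ x ∈ V.nonunits := by
    intro x hx
    rw [ValuationSubring.mem_nonunits_iff_or] at hx ⊢
    rcases hx with hx | hx
    · left
      rw [hx, map_zero]
    · right
      rw [hm, map_inv₀] at hx
      exact hx
  obtain ⟨h1, h2⟩ := h _ hV'
  refine ⟨h1, fun hP => ?_⟩
  obtain ⟨h3, h4, h5⟩ := h2 hP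
  have h6 := hn _ h5
  rw [hm, map_div₀] at h3 h4
  rw [map_sub] at h6
  exact ⟨h3, h4, h6⟩

theorem gcls_eq {l m : L₁ →ₐ[k] Ω} (h : m ∈ GCls ξ g l) : GCls ξ g m = GCls ξ g l := by
  ext m'
  exact ⟨fun h' => GLink.trans h h', fun h' => GLink.trans (GLink.symm h) h'⟩

end Pool.Agent.H12.OG
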