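import Pool.Agent.H12.OG.Gln
import Pool.Agent.H12.OG.Gau

/-! # [H12 OG GME] The mean of `g` over the class

`S = GCls ξ g l`, finite, not empty (`GLink.rfl'`). `g₀ = (1/|S|) ∑_{m ∈ S} m g ∈ Ω`. (a) Let `σ : Ω ≃ₐ[k] Ω` with `σ ∘ l ∈ S`. `m ↦ σ ∘ m` maps `S` onto `S`: for `m ∈ S` `σ ∘ m` is linked with `σ ∘ l` (`GLink.map`), so it is in `GCls (σ ∘ l) = GCls l` (`gcls_eq`);
the map is injective and `S` is finite. So `σ g₀ = g₀`. (b) In particular for `σ ∘ l = l`: `fixed_range` gives `h` with `l h = g₀`. (c) `m ∈ S`: `exists_aut'`: `σ ∘ l = m`; `m h = σ (l h) = σ g₀ = g₀ = l h` by (a).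
(d) `V` over `k` with `l ξ ∉ V`: `l g - m g ∈ V.nonunits` for all `m ∈ S`, so the sum is, and `1/|S| ∈ V` (an element of `k`): `l g - g₀ ∈ V.nonunits`. Compare the proof of `gsy` (Gsy.lean) for (a)-(c). -/

namespace Pool.Agent.H12.OG

open Pool.Agent.H12.ON Pool.Agent.H82.NS IntermediateField

theorem gme {k L₁ Ω : Type} [Field k] [CharZero k] [Field L₁] [Field Ω] [IsAlgClosed Ω] [Algebra k L₁]
    [Algebra k Ω] {ξ g : L₁} (hK : FF k ξ) (l : L₁ →ₐ[k] Ω) (hΩ : Algebra.IsAlgebraic k⟮l ξ⟯ Ω)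
    (hfin : (GCls ξ g l).Finite) : ∃ h : L₁, (∀ m ∈ GCls ξ g l, m h = l h) ∧
      ∀ V : ValuationSubring Ω, Ov k V → l ξ ∉ V → l h - l g ∈ V.nonunits := by
  classical
  have hmem : ∀ m, m ∈ hfin.toFinset ↔ m ∈ GCls ξ g l := fun m => Set.Finite.mem_toFinset hfin
  have hl : l ∈ hfin.toFinset := (hmem l).2 (GLink.rfl' l)
  have hcard : ((hfin.toFinset.card : ℕ) : k) ≠ 0 := by
    rw [Nat.cast_ne_zero]
    exact (Finset.card_pos.2 ⟨l, hl⟩).ne'
  obtain ⟨e, he⟩ : ∃ e : k, e = ((hfin.toFinset.card : ℕ) : k)⁻¹ := ⟨_, rfl⟩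
  obtain ⟨g₀, hg₀⟩ : ∃ g₀ : Ω, g₀ = algebraMap k Ω e * ∑ m ∈ hfin.toFinset, m g := ⟨_, rfl⟩
  have hfix : ∀ σ : Ω ≃ₐ[k] Ω, (σ : Ω →ₐ[k] Ω).comp l ∈ GCls ξ g l → σ g₀ = g₀ := by
    intro σ hσ
    rw [hg₀, map_mul, AlgEquiv.commutes, map_sum]
    congr 1
    refine Finset.sum_bij' (fun m _ => (σ : Ω →ₐ[k] Ω).comp m) (fun m _ => (σ.symm : Ω →ₐ[k] Ω).comp m)
      ?_ ?_ ?_ ?_ ?_
    · intro m hm
      rw [hmem] at hm ⊢
      have h2 : (σ : Ω →ₐ[k] Ω).comp m ∈ GCls ξ g ((σ : Ω →ₐ[k] Ω).comp l) := GLink.map hm σ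
      rw [gcls_eq hσ] at h2
      exact h2
    · intro m hm
      rw [hmem] at hm ⊢
      rw [← gcls_eq hσ] at hm
      have h2 := GLink.map hm σ.symm
      have h3 : (σ.symm : Ω →ₐ[k] Ω).comp ((σ : Ω →ₐ[k] Ω).comp l) = l := by
        ext x
        simp
      rw [h3] at h2
      exact h2
    · intro m _
      ext x
      simp
    · intro m _
      ext x
      simp
    · intro m _
      rfl
  obtain ⟨h, hh⟩ := fixed_range hK l hΩ (z := g₀) (by
    intro σ hσ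
    apply hfix σ
    rw [hσ]
    exact GLink.rfl' l)
  refine ⟨h, ?_, ?_⟩
  · intro m hm
    obtain ⟨σ, hσ⟩ := exists_aut' hK l m hΩ
    have h1 : m h = σ (l h) := by
      rw [← hσ]
      rfl
    rw [h1, hh]
    apply hfix σ
    rw [hσ]
    exact hm
  · intro V hV hlV
    have h1 : l h - l g = algebraMap k Ω e * ∑ m ∈ hfin.toFinset, (m g - l g) := by
      rw [hh, hg₀, Finset.sum_sub_distrib, Finset.sum_const, nsmul_eq_mul, mul_sub, ← mul_assoc, he,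
        ← map_natCast (algebraMap k Ω), ← map_mul, inv_mul_cancel₀ hcard, map_one, one_mul]
    rw [h1, ValuationSubring.mem_nonunits_iff, map_mul]
    have h2 : V.valuation (∑ m ∈ hfin.toFinset, (m g - l g)) < 1 := by
      refine Valuation.map_sum_lt _ one_ne_zero fun m hm => ?_
      rw [hmem] at hm
      have h3 := ((hm V hV).2 hlV).2.2
      rw [ValuationSubring.mem_nonunits_iff] at h3
      rw [Valuation.map_sub_swap]
      exact h3
    have h4 : V.valuation (algebraMap k Ω e) ≤ 1 := (ValuationSubring.valuation_le_one_iff _ _).2 (hV e)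
    exact mul_lt_one_of_nonneg_of_lt_one_right h4 zero_le' h2

end Pool.Agent.H12.OG
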