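import Pool.Agent.H12.OG.Gsy

/-! # [H12 OG GNC] There is a nonconstant invariant; every integral function is integral over the invariants

`gnc_root`: `p` from `gsy` for `z`; `l ∈ GCls ξ g l` (`GLink.rfl'`), so `X - C (l z)` is a factor of `p.map l` and `p.eval z = 0` (injectivity of `l`). `gnc`: apply it to `z = ξ`. If all coefficients of `p` were algebraic over `k`, then `ξ`, a
zero of the monic `p`, would be algebraic over `k` (transitivity: `algebraicClosure k L₁` is algebraically closed in `L₁`): contradiction to `hK.tr`. -/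

namespace Pool.Agent.H12.OG

open Pool.Agent.H12.ON Pool.Agent.H82.NS IntermediateField

variable {k L₁ Ω : Type} [Field k] [CharZero k] [Field L₁] [Field Ω] [IsAlgClosed Ω] [Algebra k L₁]
    [Algebra k Ω] {ξ g : L₁}

theorem gnc_root (hK : FF k ξ) (l : L₁ →ₐ[k] Ω) (hΩ : Algebra.IsAlgebraic k⟮l ξ⟯ Ω)
    (hfin : (GCls ξ g l).Finite) {z : L₁} (hz : IsInt k ξ z) : ∃ p : Polynomial L₁, p.Monic ∧
      (∀ i, Inv ξ g l (p.coeff i)) ∧ p.eval z = 0 := by
  obtain ⟨p, h1, h2, h3⟩ := gsy hK l hΩ hfin hz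
  refine ⟨p, h1, h2, ?_⟩
  have h4 : l (p.eval z) = 0 := by
    have h5 : l (p.eval z) = (p.map (l : L₁ →+* Ω)).eval (l z) := by
      rw [Polynomial.eval_map]
      exact (Polynomial.hom_eval₂ p (RingHom.id L₁) (l : L₁ →+* Ω) z)
    rw [h5, h3, Polynomial.eval_prod]
    refine Finset.prod_eq_zero (i := l) (hfin.mem_toFinset.2 (GLink.rfl' l)) ?_
    rw [Polynomial.eval_sub, Polynomial.eval_X, Polynomial.eval_C, sub_self]
  exact (map_eq_zero l).1 h4

theorem gnc (hK : FF k ξ) (l : L₁ →ₐ[k] Ω) (hΩ : Algebra.IsAlgebraic k⟮l ξ⟯ Ω)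
    (hfin : (GCls ξ g l).Finite) : ∃ q : L₁, Inv ξ g l q ∧ Transcendental k q := by
  have hz : IsInt k ξ ξ := isIntegral_algebraMap (R := Algebra.adjoin k {ξ})
    (x := (⟨ξ, Algebra.subset_adjoin (Set.mem_singleton ξ)⟩ : Algebra.adjoin k {ξ}))
  obtain ⟨p, h1, h2, h3⟩ := gnc_root hK l hΩ hfin hz
  by_contra hcon
  push Not at hcon
  have h4 : ∀ i, IsIntegral k (p.coeff i) := by
    intro i
    have h5 := hcon _ (h2 i)
    rw [Transcendental, not_not] at h5
    exact h5.isIntegral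
  have h5 : p ∈ Polynomial.lifts (algebraMap (integralClosure k L₁) L₁) := by
    rw [Polynomial.lifts_iff_coeff_lifts]
    exact fun i => ⟨⟨p.coeff i, h4 i⟩, rfl⟩
  obtain ⟨q, hq1, -, hq2⟩ := Polynomial.lifts_and_natDegree_eq_and_monic h5 h1
  have h6 : IsIntegral (integralClosure k L₁) ξ := by
    refine ⟨q, hq2, ?_⟩
    rw [← Polynomial.eval_map, hq1, h3]
  have h7 : IsIntegral k ξ := isIntegral_trans ξ h6
  exact hK.tr h7.isAlgebraic

end Pool.Agent.H12.OG
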