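import Pool.Agent.H12.OG.Gme
import Pool.Agent.H12.OG.Gnc
import Pool.Agent.H12.ON.Val

/-! # [H12 OG GQU] The quotient curve: two invariant functions `u, w` with `w/u^κ - g` in the maximal ideal of the place

`not_mem_of_int`: `u` is integral over `k[ξ]` and transcendental over `k`, `O` is the only valuation ring over `k` without `ξ`. If `u ∈ O` then `u` is in all valuation rings over `k` of `L₁` (in those which contain `ξ` because they are integrally closed), so `u` is algebraic over `k`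
(`all_alg`, Val.lean): contradiction.
`gquo`: `u` from `gnc`, `h` from `gme`, `κ` and `δ` as follows. `L₁` is algebraic over `k(u)` (`u` is transcendental over `k` and algebraic over `k(ξ)`, so `ξ` is algebraic over `k(u)`: `alg_swap` in ON/Gal.lean or similar), so `h` is algebraic over `R = k[u] = Algebra.adjoin k {u}`:
`exists_integral_multiple` (Mathlib; or `IsAlgebraic.exists_integral_multiple`): `y ≠ 0` in `R` with `y h` integral over `R`; `y = δ₀(u)`, `δ₀ ≠ 0` in `k[T]`; divide by the leading coefficient: `δ` monic, `κ = natDegree δ`, `δ(u) h` integral over `R`, so over `k[ξ]` (`u` is integral over it). `w = δ(u) h`; it is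
invariant (`m w = δ(m u) m h`).
Choose `V` over `k` in `Ω` without `l ξ` (`exists_inf`; `l ξ` is transcendental): `V.comap l = O` (it does not contain `ξ`), `l h - l g ∈ V.nonunits` gives `h - g ∈ O.nonunits`, so `h ∈ O`. `1/u ∈ O.nonunits` (`u ∉ O`), `δ(u)/u^κ = 1 + ∑_{j < κ} d_j (1/u)^(κ-j)`, so `δ(u)/u^κ - 1 ∈ O.nonunits`;
`w/u^κ - g = (δ(u)/u^κ - 1) h + (h - g) ∈ O.nonunits`.
`int_swap`: `int_of_all` (in `L₁`): `V` over `k` with `u ∈ V`; if `ξ ∉ V` then `V = O`, but `u ∉ O`; so `ξ ∈ V` and `z ∈ V` (integral over `k[ξ] ⊆ V`). -/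

namespace Pool.Agent.H12.OG

open Pool.Agent.H12.ON Pool.Agent.H82.NS IntermediateField

private theorem int_mem {k L₁ : Type} [Field k] [Field L₁] [Algebra k L₁] {ξ z : L₁}
    {V : ValuationSubring L₁} (hV : Ov k V) (hξ : ξ ∈ V) (hz : IsInt k ξ z) : z ∈ V := by
  obtain ⟨p, hp, hpz⟩ : IsIntegral (Algebra.adjoin k {ξ}) z := hz
  have hle : (Algebra.adjoin k {ξ}).toSubring ≤ V.toSubring := by
    have h1 : Algebra.adjoin k {ξ} ≤
        ({ V.toSubring with algebraMap_mem' := hV } : Subalgebra k L₁) :=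
      Algebra.adjoin_le (Set.singleton_subset_iff.2 hξ)
    exact fun x hx => h1 hx
  have h1 : IsIntegral V z := by
    refine ⟨p.map (Subring.inclusion hle), hp.map _, ?_⟩
    rw [Polynomial.eval₂_map]
    exact hpz
  obtain ⟨y, rfl⟩ := IsIntegrallyClosed.isIntegral_iff.1 h1
  exact y.2

theorem not_mem_of_int {k L₁ : Type} [Field k] [Field L₁] [Algebra k L₁] {ξ u : L₁}
    {O : ValuationSubring L₁} (hO : ∀ W : ValuationSubring L₁, Ov k W → ξ ∉ W → W = O)
    (hu : IsInt k ξ u) (ht : Transcendental k u) : u ∉ O := by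
  intro h
  refine ht (all_alg fun V hV => ?_)
  by_cases h1 : ξ ∈ V
  · exact int_mem hV h1 hu
  · rw [hO V hV h1]
    exact h

private theorem alg_swap' {k K : Type} [Field k] [Field K] [Algebra k K] {x x' : K}
    (hΩ : Algebra.IsAlgebraic k⟮x⟯ K) (hx' : Transcendental k x') :
    Algebra.IsAlgebraic (Algebra.adjoin k {x'}) K := by
  have h1 : Algebra.IsAlgebraic (Algebra.adjoin k {x}) K := isAlgebraic_adjoin_iff_top.1 hΩ
  have h2 := Algebra.IsAlgebraic.trdeg_le_cardinalMk k ({x} : Set K)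
  have h3 : AlgebraicIndependent k (fun _ : Unit => x') := algebraicIndependent_unique_type_iff.2 hx'
  have h4 : IsTranscendenceBasis k (fun _ : Unit => x') := by
    refine h3.isTranscendenceBasis_of_trdeg_le_of_finite (h2.trans ?_)
    simp
  have h5 := h4.isAlgebraic_field
  rw [Set.range_const] at h5
  exact isAlgebraic_adjoin_iff_top.1 h5

private theorem non_iff {K : Type} [Field K] {O : ValuationSubring K} {x : K} :
    x ∈ O.nonunits ↔ O.valuation x < 1 := O.mem_nonunits_iff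

private theorem lead_non {k K : Type} [Field k] [Field K] [Algebra k K] {O : ValuationSubring K}
    (hk : Ov k O) {u : K} (hu : u ∉ O) {δ : Polynomial k} (hδ : δ.Monic) :
    Polynomial.aeval u δ / u ^ δ.natDegree - 1 ∈ O.nonunits := by
  have hu0 : u ≠ 0 := by
    rintro rfl
    exact hu O.zero_mem
  have hui : O.valuation u⁻¹ < 1 := non_iff.1 (O.inv_mem_nonunits_iff.2 (Or.inr hu))
  have h1 : Polynomial.aeval u δ / u ^ δ.natDegree - 1 =
      ∑ i ∈ Finset.range δ.natDegree, algebraMap k K (δ.coeff i) * u⁻¹ ^ (δ.natDegree - i) := by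
    have h2 : Polynomial.aeval u δ = u ^ δ.natDegree +
        ∑ i ∈ Finset.range δ.natDegree, algebraMap k K (δ.coeff i) * u ^ i := by
      conv_lhs => rw [hδ.as_sum]
      simp
    rw [h2, add_div, div_self (pow_ne_zero _ hu0), add_sub_cancel_left, Finset.sum_div]
    refine Finset.sum_congr rfl fun i hi => ?_
    rw [Finset.mem_range] at hi
    rw [mul_div_assoc]
    congr 1
    rw [inv_pow, div_eq_iff (pow_ne_zero _ hu0), ← div_eq_inv_mul, eq_div_iff (pow_ne_zero _ hu0),
      ← pow_add]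
    congr 1
    omega
  rw [h1, non_iff]
  refine Valuation.map_sum_lt _ one_ne_zero fun i hi => ?_
  rw [Finset.mem_range] at hi
  rw [map_mul, map_pow]
  have h2 : O.valuation (algebraMap k K (δ.coeff i)) ≤ 1 := (O.valuation_le_one_iff _).2 (hk _)
  exact mul_lt_one_of_nonneg_of_lt_one_right h2 zero_le (pow_lt_one₀ zero_le hui (by omega))

theorem gquo {k L₁ Ω : Type} [Field k] [CharZero k] [Field L₁] [Field Ω] [IsAlgClosed Ω] [Algebra k L₁]
    [Algebra k Ω] {ξ g : L₁} (hK : FF k ξ) {O : ValuationSubring L₁} (hk : Ov k O) (hξ : ξ ∉ O)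
    (hO : ∀ W : ValuationSubring L₁, Ov k W → ξ ∉ W → W = O) (hg : g ∈ O) (l : L₁ →ₐ[k] Ω)
    (hΩ : Algebra.IsAlgebraic k⟮l ξ⟯ Ω) (hfin : (GCls ξ g l).Finite) : ∃ (u w : L₁) (κ : ℕ),
      Inv ξ g l u ∧ Inv ξ g l w ∧ Transcendental k u ∧ w / u ^ κ - g ∈ O.nonunits := by
  obtain ⟨u, hu, ht⟩ := gnc hK l hΩ hfin
  obtain ⟨h, hh1, hh2⟩ := gme hK l hΩ hfin
  have hfd := hK.fin
  have halg : Algebra.IsAlgebraic (Algebra.adjoin k {u}) L₁ :=
    alg_swap' (x := ξ) inferInstance ht
  obtain ⟨y, hy0, hy⟩ := (halg.isAlgebraic h).exists_integral_multiple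
  obtain ⟨δ₀, hδ₀⟩ : ∃ δ₀ : Polynomial k, Polynomial.aeval u δ₀ = (y : L₁) := by
    have h1 : ∀ z ∈ Algebra.adjoin k {u}, ∃ δ₀ : Polynomial k, Polynomial.aeval u δ₀ = z := by
      intro z hz
      rw [Algebra.adjoin_singleton_eq_range_aeval] at hz
      exact hz
    exact h1 _ y.2
  have hd0 : δ₀ ≠ 0 := by
    rintro rfl
    apply hy0
    apply Subtype.ext
    rw [← hδ₀]
    simp
  have hc : δ₀.leadingCoeff ≠ 0 := Polynomial.leadingCoeff_ne_zero.2 hd0
  obtain ⟨δ, hδ⟩ : ∃ δ : Polynomial k, δ = Polynomial.C δ₀.leadingCoeff⁻¹ * δ₀ := ⟨_, rfl⟩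
  have hm : δ.Monic := by
    rw [hδ, Polynomial.Monic, Polynomial.leadingCoeff_mul, Polynomial.leadingCoeff_C,
      inv_mul_cancel₀ hc]
  have huO : u ∉ O := not_mem_of_int hO hu.1 ht
  obtain ⟨w, hw⟩ : ∃ w : L₁, w = Polynomial.aeval u δ * h := ⟨_, rfl⟩
  have hwu : IsInt k u w := by
    have h1 : w = (algebraMap k (Algebra.adjoin k {u}) δ₀.leadingCoeff⁻¹ * y) • h := by
      rw [hw, hδ, map_mul, Polynomial.aeval_C, hδ₀, Algebra.smul_def, map_mul]
      rfl
    have h2 : w = algebraMap (Algebra.adjoin k {u}) L₁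
        (algebraMap k (Algebra.adjoin k {u}) δ₀.leadingCoeff⁻¹) * (y • h) := by
      rw [h1, Algebra.smul_def, Algebra.smul_def, map_mul, mul_assoc]
    rw [IsInt, h2]
    exact isIntegral_algebraMap.mul hy
  have hwξ : IsInt k ξ w :=
    int_of_all fun V hV hξV => int_mem hV (int_mem hV hξV hu.1) hwu
  refine ⟨u, w, δ.natDegree, hu, ⟨hwξ, fun m hmm => ?_⟩, ht, ?_⟩
  · rw [hw, map_mul, map_mul, hh1 m hmm, ← Polynomial.aeval_algHom_apply,
      ← Polynomial.aeval_algHom_apply, hu.2 m hmm]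
  · have hlξ : Transcendental k (l ξ) := by
      intro h1
      exact hK.tr ((isAlgebraic_algHom_iff l l.injective).1 h1)
    obtain ⟨V, hV, hVξ⟩ := exists_inf hlξ
    have hcm : ∀ x : L₁, x ∈ V.comap (l : L₁ →+* Ω) ↔ l x ∈ V := fun _ => Iff.rfl
    have hVO : V.comap (l : L₁ →+* Ω) = O := by
      refine hO _ (fun e => ?_) (fun h1 => hVξ ((hcm ξ).1 h1))
      rw [hcm, l.commutes]
      exact hV e
    have hhg : h - g ∈ O.nonunits := by
      have h1 := hh2 V hV hVξ
      rw [V.mem_nonunits_iff_or, ← map_sub, ← map_inv₀] at h1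
      rw [O.mem_nonunits_iff_or, ← hVO, hcm]
      rcases h1 with h1 | h1
      · exact Or.inl ((map_eq_zero l).1 h1)
      · exact Or.inr h1
    have hhg' : O.valuation (h - g) < 1 := non_iff.1 hhg
    have hhO : O.valuation h ≤ 1 := by
      have h1 : h = (h - g) + g := by ring
      rw [h1]
      exact (O.valuation.map_add _ _).trans (max_le hhg'.le ((O.valuation_le_one_iff _).2 hg))
    have h2 : w / u ^ δ.natDegree - g =
        (Polynomial.aeval u δ / u ^ δ.natDegree - 1) * h + (h - g) := by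
      rw [hw]
      ring
    rw [h2, non_iff]
    refine O.valuation.map_add_lt ?_ hhg'
    rw [map_mul]
    exact mul_lt_one_of_lt_of_le (non_iff.1 (lead_non hk huO hm)) hhO

/-- the functions which are integral over `k[ξ]` are integral over `k[u]` -/
theorem int_swap {k L₁ : Type} [Field k] [Field L₁] [Algebra k L₁] {ξ u z : L₁}
    {O : ValuationSubring L₁} (hO : ∀ W : ValuationSubring L₁, Ov k W → ξ ∉ W → W = O)
    (hu : IsInt k ξ u) (ht : Transcendental k u) (hz : IsInt k ξ z) : IsInt k u z := by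
  refine int_of_all fun V hV huV => ?_
  by_cases h1 : ξ ∈ V
  · exact int_mem hV h1 hz
  · exact absurd (hO V hV h1 ▸ huV) (not_mem_of_int hO hu ht)

end Pool.Agent.H12.OG
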