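import Pool.Agent.H12.OG.Gln
import Pool.Agent.H12.OG.Gau
import Pool.Agent.H12.ON.Val

/-! # [H12 OG GSY] The characteristic polynomial over the class has invariant integral coefficients

`S` = the class of `l`, finite, `c = ∏_{m ∈ S} (X - C (m z)) ∈ Ω[X]`.
(a) For `σ` with `σ ∘ l = l` the map `m ↦ σ ∘ m` permutes `S` (`GLink.map`: `σ ∘ m` is linked with `σ ∘ l = l`), so the coefficients of `c` are fixed by `σ`: they are in the image of `l` (`fixed_range`): `c = p.map l`,
`p` monic in `L₁[X]`.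
(b) Coefficients of `p` are integral over `k[ξ]`: let `V` be over `k` in `Ω` with `l ξ ∈ V`. For `m ∈ S`: `m ξ ∈ V`, `z` is integral over `k[ξ]`, so `m z` is integral over `k[m ξ] ⊆ V`, `m z ∈ V` (valuation rings are integrally
closed). So `l (p.coeff i) ∈ V`. `int_of_all` (ON/Val): `l (p.coeff i)` is integral over `k[l ξ]`, and `l` is injective: `p.coeff i` is integral over `k[ξ]` (the monic equation has coefficients in `k[l ξ] = l(k[ξ])`).
(c) Invariance: let `m ∈ S`, `σ ∘ l = m` (`exists_aut'`). `σ` maps `S = GCls l` onto `GCls m = S` (`gcls_eq`), so `σ` fixes the coefficients of `c`: `m (p.coeff i) = σ (l (p.coeff i)) = l (p.coeff i)`. -/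

namespace Pool.Agent.H12.OG

open Pool.Agent.H12.ON Pool.Agent.H82.NS IntermediateField

private theorem gs_val {k L₁ Ω : Type} [Field k] [Field L₁] [Field Ω] [Algebra k L₁] [Algebra k Ω] {ξ : L₁}
    (m : L₁ →ₐ[k] Ω) {V : ValuationSubring Ω} (hV : Ov k V) (hm : m ξ ∈ V) {z : L₁} (hz : IsInt k ξ z) :
    m z ∈ V := by
  have h1 : ∀ a ∈ Algebra.adjoin k {ξ}, m a ∈ V := by
    intro a ha
    induction ha using Algebra.adjoin_induction with
    | mem x hx =>
      rw [Set.mem_singleton_iff.1 hx]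
      exact hm
    | algebraMap r =>
      rw [m.commutes]
      exact hV r
    | add x y _ _ hx hy =>
      rw [map_add]
      exact add_mem hx hy
    | mul x y _ _ hx hy =>
      rw [map_mul]
      exact mul_mem hx hy
  let φ : Algebra.adjoin k {ξ} →+* V :=
    ((m : L₁ →+* Ω).comp (algebraMap (Algebra.adjoin k {ξ}) L₁)).codRestrict V.toSubring
      (fun a => h1 a.1 a.2)
  have h2 : IsIntegral V (m z) := by
    refine IsIntegral.map_of_comp_eq φ (m : L₁ →+* Ω) ?_ hz
    ext a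
    rfl
  obtain ⟨y, hy⟩ := IsIntegrallyClosed.isIntegral_iff.1 h2
  rw [← hy]
  exact y.2

private theorem gs_desc {k L₁ Ω : Type} [Field k] [Field L₁] [Field Ω] [Algebra k L₁] [Algebra k Ω] {ξ : L₁}
    (l : L₁ →ₐ[k] Ω) {q : L₁} (h : IsIntegral (Algebra.adjoin k {l ξ}) (l q)) : IsInt k ξ q := by
  have hA : (Algebra.adjoin k {ξ}).map l = Algebra.adjoin k {l ξ} := by
    rw [AlgHom.map_adjoin, Set.image_singleton]
  have h' : IsIntegral ((Algebra.adjoin k {ξ}).map l) (l q) := by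
    refine IsIntegral.map_of_comp_eq (Subalgebra.inclusion hA.ge : _ →+* _) (RingHom.id Ω) ?_ h
    ext a
    rfl
  obtain ⟨P, hP, hP0⟩ := h'
  obtain ⟨e, he⟩ : ∃ e : Algebra.adjoin k {ξ} ≃ₐ[k] ((Algebra.adjoin k {ξ}).map l),
      ∀ x, ((e x : (Algebra.adjoin k {ξ}).map l) : Ω) = l x :=
    ⟨Subalgebra.equivMapOfInjective _ l (l : L₁ →+* Ω).injective,
      fun x => Subalgebra.coe_equivMapOfInjective_apply _ _ _ _⟩
  refine ⟨P.map (e.symm : ((Algebra.adjoin k {ξ}).map l) →+* Algebra.adjoin k {ξ}), hP.map _, ?_⟩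
  apply (l : L₁ →+* Ω).injective
  rw [Polynomial.eval₂_map, Polynomial.hom_eval₂, map_zero, ← hP0]
  congr 1
  ext a
  have h1 := he (e.symm a)
  rw [AlgEquiv.apply_symm_apply] at h1
  exact h1.symm

theorem gsy {k L₁ Ω : Type} [Field k] [CharZero k] [Field L₁] [Field Ω] [IsAlgClosed Ω] [Algebra k L₁]
    [Algebra k Ω] {ξ g : L₁} (hK : FF k ξ) (l : L₁ →ₐ[k] Ω) (hΩ : Algebra.IsAlgebraic k⟮l ξ⟯ Ω)
    (hfin : (GCls ξ g l).Finite) {z : L₁} (hz : IsInt k ξ z) : ∃ p : Polynomial L₁, p.Monic ∧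
      (∀ i, Inv ξ g l (p.coeff i)) ∧
      p.map (l : L₁ →+* Ω) = ∏ m ∈ hfin.toFinset, (Polynomial.X - Polynomial.C (m z)) := by
  classical
  obtain ⟨c, hc⟩ : ∃ c : Polynomial Ω,
    c = ∏ m ∈ hfin.toFinset, (Polynomial.X - Polynomial.C (m z)) := ⟨_, rfl⟩
  have hmem : ∀ m, m ∈ hfin.toFinset ↔ m ∈ GCls ξ g l := fun m => Set.Finite.mem_toFinset hfin
  -- automorphisms
  have hfix : ∀ σ : Ω ≃ₐ[k] Ω, (σ : Ω →ₐ[k] Ω).comp l ∈ GCls ξ g l → ∀ i, σ (c.coeff i) = c.coeff i := by
    intro σ hσ i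
    have h1 : c.map (σ : Ω →+* Ω) = c := by
      rw [hc, Polynomial.map_prod]
      refine Finset.prod_bij' (fun m _ => (σ : Ω →ₐ[k] Ω).comp m) (fun m _ => (σ.symm : Ω →ₐ[k] Ω).comp m)
        ?_ ?_ ?_ ?_ ?_
      · intro m hm
        rw [hmem] at hm ⊢
        have h2 : (σ : Ω →ₐ[k] Ω).comp m ∈ GCls ξ g ((σ : Ω →ₐ[k] Ω).comp l) := GLink.map hm σ
        rw [gcls_eq hσ] at h2
        exact h2
      · intro m hm
        rw [hmem] at hm ⊢
        rw [← gcls_eq hσ] at hm
        have h2 := GLink.map hm σ.symm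
        have h3 : (σ.symm : Ω →ₐ[k] Ω).comp ((σ : Ω →ₐ[k] Ω).comp l) = l := by
          ext x
          simp
        rw [h3] at h2
        exact h2
      · intro m _
        ext x
        simp
      · intro m _
        ext x
        simp
      · intro m _
        simp
    have h4 := congrArg (fun p => Polynomial.coeff p i) h1
    simp only [Polynomial.coeff_map] at h4
    exact h4
  have hrange : ∀ i, ∃ q : L₁, l q = c.coeff i := by
    intro i
    refine fixed_range hK l hΩ fun σ hσ => hfix σ ?_ i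
    rw [hσ]
    exact GLink.rfl' l
  have hlift : c ∈ Polynomial.lifts (l : L₁ →+* Ω) := by
    rw [Polynomial.lifts_iff_coeff_lifts]
    intro i
    obtain ⟨q, hq⟩ := hrange i
    exact ⟨q, hq⟩
  obtain ⟨p, hp⟩ := (Polynomial.mem_lifts c).1 hlift
  have hcoef : ∀ i, l (p.coeff i) = c.coeff i := by
    intro i
    rw [← hp, Polynomial.coeff_map]
    rfl
  have hcm : c.Monic := by
    rw [hc]
    exact Polynomial.monic_prod_of_monic _ _ fun m _ => Polynomial.monic_X_sub_C _
  refine ⟨p, ?_, ?_, hp.trans hc⟩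
  · apply Polynomial.monic_of_injective (l : L₁ →+* Ω).injective
    rw [hp]
    exact hcm
  · intro i
    refine ⟨?_, ?_⟩
    · apply gs_desc l
      apply int_of_all
      intro V hV hlV
      have h1 : c ∈ Polynomial.lifts (algebraMap V Ω) := by
        rw [hc]
        refine Subsemiring.prod_mem _ fun m hm => ?_
        rw [hmem] at hm
        have h2 : m z ∈ V := gs_val m hV ((hm V hV).1.1 hlV) hz
        refine (Polynomial.mem_lifts _).2 ⟨Polynomial.X - Polynomial.C ⟨m z, h2⟩, ?_⟩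
        rw [Polynomial.map_sub, Polynomial.map_X, Polynomial.map_C]
        rfl
      rw [Polynomial.lifts_iff_coeff_lifts] at h1
      obtain ⟨y, hy⟩ := h1 i
      rw [hcoef, ← hy]
      exact y.2
    · intro m hm
      obtain ⟨σ, hσ⟩ := exists_aut' hK l m hΩ
      have h1 : m (p.coeff i) = σ (l (p.coeff i)) := by
        rw [← hσ]
        rfl
      rw [h1, hcoef]
      apply hfix σ
      rw [hσ]
      exact hm

end Pool.Agent.H12.OG
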